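import Pool.Agent.R490.GPd

set_option autoImplicit false

/-!
# Almost all odd numbers: twice a very small prime plus a product of at most three primes
-/

namespace Pool.Agent.Results.MP_662920_nt.TwiceTinyPrime

open Finset Filter

open Classical in
/-- the number of the indices `1 ≤ j ≤ T` such that `n - 2 p_j ≥ 2`, `p_j` the `j`-th prime, has at most `k` prime
factors (counted with multiplicity), all of them at least `w` -/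
noncomputable def tinyPrimes (n k : ℕ) (w T : ℝ) : ℕ :=
  ((Icc 1 ⌊T⌋₊).filter (fun j : ℕ => ∃ N : ℕ, N + 2 * Nat.nth Nat.Prime (j - 1) = n ∧ 2 ≤ N ∧
    N.primeFactorsList.length ≤ k ∧ ∀ q : ℕ, q.Prime → q ∣ N → w ≤ q)).card

lemma cnt_eq (n k : ℕ) (w T : ℝ) :
    R490.LGb.cnt (fun _ => 1) (fun j => (-2 : ℤ) * R490.GPa.pn j) k ⌊T⌋₊ n w ≤ tinyPrimes n k w T := by
  classical
  unfold R490.LGb.cnt tinyPrimes
  apply card_le_card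
  intro j hj
  rw [mem_filter] at hj ⊢
  obtain ⟨h1, h2, h3, h4⟩ := hj
  obtain ⟨N, hN⟩ : ∃ N : ℕ, (N : ℤ) = ((1 : ℕ) : ℤ) * n + (-2 : ℤ) * R490.GPa.pn j :=
    ⟨(((1 : ℕ) : ℤ) * n + (-2 : ℤ) * R490.GPa.pn j).toNat, Int.toNat_of_nonneg (by linarith)⟩
  rw [← hN] at h2 h3 h4
  rw [Int.toNat_natCast] at h3
  refine ⟨h1, N, ?_, by exact_mod_cast h2, h3, ?_⟩
  · have e : R490.GPa.pn j = Nat.nth Nat.Prime (j - 1) := rfl
    rw [← e]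
    push_cast at hN
    omega
  · intro q hq hd
    exact h4 q hq (by exact_mod_cast hd)

/-- **Almost all odd `n` are the sum of twice a very small prime and an almost prime.** -/
theorem result (θ ε : ℝ) (k : ℕ) (hθ : 0 < θ) (hθ1 : θ ≤ 1) (hk : 1 / 8 + 25 / (12 * θ) < k) (hε : 0 < ε) :
    ∃ κ Λ : ℝ, 0 < κ ∧ 0 < Λ ∧ ∀ l : ℝ, Λ ≤ l → ∃ X₀ : ℕ, ∀ X : ℕ, X₀ ≤ X → ∀ Z L : ℕ,
      (X : ℝ) ^ θ ≤ L → Z + L ≤ X →
      (({n : ℕ | n ∈ Ioc Z (Z + L) ∧ Odd n ∧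
        (tinyPrimes n k ((X : ℝ) ^ (θ / 10)) (l * Real.log X) : ℝ) < κ * l} : Set ℕ).ncard : ℝ) ≤ ε * L := by
  classical
  obtain ⟨κ, Λ, hκ, hΛ, h⟩ := R490.GPd.mainG (-2) (by norm_num) θ ε k hθ hθ1 hk hε
  refine ⟨κ, Λ, hκ, hΛ, ?_⟩
  intro l hl
  obtain ⟨X₀, hX₀⟩ := eventually_atTop.1 (h l hl)
  refine ⟨X₀, ?_⟩
  intro X hX Z L hL hZ
  refine le_trans ?_ (hX₀ X hX Z L hL hZ)
  have hsub : ({n : ℕ | n ∈ Ioc Z (Z + L) ∧ Odd n ∧
        (tinyPrimes n k ((X : ℝ) ^ (θ / 10)) (l * Real.log X) : ℝ) < κ * l} : Set ℕ) ⊆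
      ((Ioc Z (Z + L)).filter (fun n => R490.GPd.AdmG (-2) n ∧
        (R490.LGb.cnt (fun _ => 1) (fun j => (-2 : ℤ) * R490.GPa.pn j) k ⌊l * Real.log X⌋₊ n
          ((X : ℝ) ^ (θ / 10)) : ℝ) < κ * l) : Finset ℕ) := by
    intro n hn
    obtain ⟨a1, a2, a3⟩ := hn
    rw [mem_coe, mem_filter]
    refine ⟨a1, ⟨?_, ?_⟩, ?_⟩
    · rw [show ((-2 : ℤ)).natAbs = 2 from rfl, Nat.coprime_two_right]
      exact a2
    · obtain ⟨t, ht⟩ := a2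
      omega
    · have a4 := cnt_eq n k ((X : ℝ) ^ (θ / 10)) (l * Real.log X)
      have a5 : (R490.LGb.cnt (fun _ => 1) (fun j => (-2 : ℤ) * R490.GPa.pn j) k ⌊l * Real.log X⌋₊ n
          ((X : ℝ) ^ (θ / 10)) : ℝ) ≤ tinyPrimes n k ((X : ℝ) ^ (θ / 10)) (l * Real.log X) := by exact_mod_cast a4
      linarith
  have h5 := Set.ncard_le_ncard hsub (Finset.finite_toSet _)
  rw [Set.ncard_coe_finset] at h5
  exact_mod_cast h5

end Pool.Agent.Results.MP_662920_nt.TwiceTinyPrime
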